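import Pool.Agent.helper56.P3.ClDefs

set_option linter.all false

/-!
# P3-CL1: invariants of quadratic rational maps (helper41)

The form `Fix = y X - x Y = c0 x³ + c1 x² y + c2 x y² + c3 y³` and the divergence
`D = d0 x + d1 y` determine the map; the invariants of degree 4 are `A1 = Fix (-d1, d0)`,
`A2 = Hess (-d1, d0)` and `A3 = disc Hess`.
-/

namespace Pool.Agent.helper56.P3

open Finset Pool.Agent.helper56.Per

namespace CL1

section

variable {K : Type*} [CommRing K]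

def A1 (c0 c1 c2 c3 d0 d1 : K) : K :=
  -c0 * d1 ^ 3 + c1 * d1 ^ 2 * d0 - c2 * d1 * d0 ^ 2 + c3 * d0 ^ 3

def A2 (c0 c1 c2 c3 d0 d1 : K) : K :=
  (3 * c0 * c2 - c1 ^ 2) * d1 ^ 2 - (9 * c0 * c3 - c1 * c2) * d0 * d1 +
    (3 * c1 * c3 - c2 ^ 2) * d0 ^ 2

def A3 (c0 c1 c2 c3 : K) : K :=
  (9 * c0 * c3 - c1 * c2) ^ 2 - 4 * (3 * c0 * c2 - c1 ^ 2) * (3 * c1 * c3 - c2 ^ 2)

/-- `81` times the resultant -/
def I0 (v : Fin 6 → K) : K :=
  3 * A1 (-v 3) (v 0 - v 4) (v 1 - v 5) (v 2) (2 * v 0 + v 4) (v 1 + 2 * v 5) -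
    3 * A2 (-v 3) (v 0 - v 4) (v 1 - v 5) (v 2) (2 * v 0 + v 4) (v 1 + 2 * v 5) +
    A3 (-v 3) (v 0 - v 4) (v 1 - v 5) (v 2)

/-- `81` times the numerator of `σ₁` -/
def I1 (v : Fin 6 → K) : K :=
  9 * A1 (-v 3) (v 0 - v 4) (v 1 - v 5) (v 2) (2 * v 0 + v 4) (v 1 + 2 * v 5) -
    6 * A3 (-v 3) (v 0 - v 4) (v 1 - v 5) (v 2)

/-- `81` times the numerator of `σ₂` -/
def I2 (v : Fin 6 → K) : K :=
  9 * A1 (-v 3) (v 0 - v 4) (v 1 - v 5) (v 2) (2 * v 0 + v 4) (v 1 + 2 * v 5) +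
    9 * A2 (-v 3) (v 0 - v 4) (v 1 - v 5) (v 2) (2 * v 0 + v 4) (v 1 + 2 * v 5) +
    12 * A3 (-v 3) (v 0 - v 4) (v 1 - v 5) (v 2)

end

theorem I0_eq (f : QMap) : I0 f.coeffs =
    81 * ((f.a0 * f.b2 - f.a2 * f.b0) ^ 2 - (f.a0 * f.b1 - f.a1 * f.b0) * (f.a1 * f.b2 - f.a2 * f.b1)) := by
  simp only [I0, A1, A2, A3, QMap.coeffs, Matrix.cons_val]
  ring

theorem I0_ne (f : QMap) : I0 f.coeffs ≠ 0 := by
  rw [I0_eq]
  exact mul_ne_zero (by norm_num) f.res_ne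

/-- transformation of the three invariants -/
theorem inv_aux {c0 c1 c2 c3 d0 d1 c0' c1' c2' c3' d0' d1' p q r t s : ℂ}
    (hdet : p * t - q * r ≠ 0)
    (e0 : c0 * p ^ 3 + c1 * p ^ 2 * r + c2 * p * r ^ 2 + c3 * r ^ 3 = s * (p * t - q * r) * c0')
    (e1 : 3 * c0 * p ^ 2 * q + c1 * (p ^ 2 * t + 2 * p * q * r) + c2 * (2 * p * r * t + q * r ^ 2) +
      3 * c3 * r ^ 2 * t = s * (p * t - q * r) * c1')
    (e2 : 3 * c0 * p * q ^ 2 + c1 * (2 * p * q * t + q ^ 2 * r) + c2 * (p * t ^ 2 + 2 * q * r * t) +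
      3 * c3 * r * t ^ 2 = s * (p * t - q * r) * c2')
    (e3 : c0 * q ^ 3 + c1 * q ^ 2 * t + c2 * q * t ^ 2 + c3 * t ^ 3 = s * (p * t - q * r) * c3')
    (g0 : d0 * p + d1 * r = s * d0') (g1 : d0 * q + d1 * t = s * d1') :
    (p * t - q * r) ^ 2 * A1 c0 c1 c2 c3 d0 d1 = s ^ 4 * A1 c0' c1' c2' c3' d0' d1' ∧
    (p * t - q * r) ^ 2 * A2 c0 c1 c2 c3 d0 d1 = s ^ 4 * A2 c0' c1' c2' c3' d0' d1' ∧
    (p * t - q * r) ^ 2 * A3 c0 c1 c2 c3 = s ^ 4 * A3 c0' c1' c2' c3' := by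
  set Δ := p * t - q * r with hΔ
  -- the Hessian
  have k0 : s ^ 2 * (3 * c0' * c2' - c1' ^ 2) = (3 * c0 * c2 - c1 ^ 2) * p ^ 2 +
      (9 * c0 * c3 - c1 * c2) * p * r + (3 * c1 * c3 - c2 ^ 2) * r ^ 2 := by
    apply mul_left_cancel₀ (pow_ne_zero 2 hdet)
    have : Δ ^ 2 * (s ^ 2 * (3 * c0' * c2' - c1' ^ 2)) =
        3 * (s * Δ * c0') * (s * Δ * c2') - (s * Δ * c1') ^ 2 := by ring
    rw [this, ← e0, ← e1, ← e2, hΔ]
    ring
  have k1 : s ^ 2 * (9 * c0' * c3' - c1' * c2') = 2 * (3 * c0 * c2 - c1 ^ 2) * p * q +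
      (9 * c0 * c3 - c1 * c2) * (p * t + q * r) + 2 * (3 * c1 * c3 - c2 ^ 2) * r * t := by
    apply mul_left_cancel₀ (pow_ne_zero 2 hdet)
    have : Δ ^ 2 * (s ^ 2 * (9 * c0' * c3' - c1' * c2')) =
        9 * (s * Δ * c0') * (s * Δ * c3') - (s * Δ * c1') * (s * Δ * c2') := by ring
    rw [this, ← e0, ← e1, ← e2, ← e3, hΔ]
    ring
  have k2 : s ^ 2 * (3 * c1' * c3' - c2' ^ 2) = (3 * c0 * c2 - c1 ^ 2) * q ^ 2 +
      (9 * c0 * c3 - c1 * c2) * q * t + (3 * c1 * c3 - c2 ^ 2) * t ^ 2 := by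
    apply mul_left_cancel₀ (pow_ne_zero 2 hdet)
    have : Δ ^ 2 * (s ^ 2 * (3 * c1' * c3' - c2' ^ 2)) =
        3 * (s * Δ * c1') * (s * Δ * c3') - (s * Δ * c2') ^ 2 := by ring
    rw [this, ← e1, ← e2, ← e3, hΔ]
    ring
  refine ⟨?_, ?_, ?_⟩
  · apply mul_left_cancel₀ hdet
    have : Δ * (s ^ 4 * A1 c0' c1' c2' c3' d0' d1') =
        -(s * Δ * c0') * (s * d1') ^ 3 + (s * Δ * c1') * (s * d1') ^ 2 * (s * d0') -
          (s * Δ * c2') * (s * d1') * (s * d0') ^ 2 + (s * Δ * c3') * (s * d0') ^ 3 := by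
      unfold A1
      ring
    rw [this, ← e0, ← e1, ← e2, ← e3, ← g0, ← g1, hΔ]
    unfold A1
    ring
  · have : s ^ 4 * A2 c0' c1' c2' c3' d0' d1' =
        (s ^ 2 * (3 * c0' * c2' - c1' ^ 2)) * (s * d1') ^ 2 -
          (s ^ 2 * (9 * c0' * c3' - c1' * c2')) * (s * d0') * (s * d1') +
          (s ^ 2 * (3 * c1' * c3' - c2' ^ 2)) * (s * d0') ^ 2 := by
      unfold A2
      ring
    rw [this, k0, k1, k2, ← g0, ← g1, hΔ]
    unfold A2
    ring
  · have : s ^ 4 * A3 c0' c1' c2' c3' =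
        (s ^ 2 * (9 * c0' * c3' - c1' * c2')) ^ 2 -
          4 * (s ^ 2 * (3 * c0' * c2' - c1' ^ 2)) * (s ^ 2 * (3 * c1' * c3' - c2' ^ 2)) := by
      unfold A3
      ring
    rw [this, k0, k1, k2, hΔ]
    unfold A3
    ring

/-- the point of the plane defined by the two invariants -/
noncomputable def sigma (f : QMap) : Fin 2 → ℂ :=
  ![I1 f.coeffs / I0 f.coeffs, I2 f.coeffs / I0 f.coeffs]

theorem sigma_conj {f g : QMap} (h : QMap.Conj f g) : sigma f = sigma g := by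
  obtain ⟨p, q, r, t, s, hdet, hs, hfg⟩ := h
  -- the coefficients
  have x10 := hfg 1 0
  have x01 := hfg 0 1
  have x11 := hfg 1 1
  simp only [QMap.X, QMap.Y] at x10 x01 x11
  obtain ⟨X10, Y10⟩ := x10
  obtain ⟨X01, Y01⟩ := x01
  obtain ⟨X11, Y11⟩ := x11
  have a20 : f.a0 * p ^ 2 + f.a1 * p * r + f.a2 * r ^ 2 = s * (p * g.a0 + q * g.b0) := by
    linear_combination X10
  have b20 : f.b0 * p ^ 2 + f.b1 * p * r + f.b2 * r ^ 2 = s * (r * g.a0 + t * g.b0) := by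
    linear_combination Y10
  have a02 : f.a0 * q ^ 2 + f.a1 * q * t + f.a2 * t ^ 2 = s * (p * g.a2 + q * g.b2) := by
    linear_combination X01
  have b02 : f.b0 * q ^ 2 + f.b1 * q * t + f.b2 * t ^ 2 = s * (r * g.a2 + t * g.b2) := by
    linear_combination Y01
  have a11 : 2 * f.a0 * p * q + f.a1 * (p * t + q * r) + 2 * f.a2 * r * t =
      s * (p * g.a1 + q * g.b1) := by
    linear_combination X11 - X10 - X01
  have b11 : 2 * f.b0 * p * q + f.b1 * (p * t + q * r) + 2 * f.b2 * r * t =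
      s * (r * g.a1 + t * g.b1) := by
    linear_combination Y11 - Y10 - Y01
  -- the divergence
  have g0 : (2 * f.a0 + f.b1) * p + (f.a1 + 2 * f.b2) * r = s * (2 * g.a0 + g.b1) := by
    apply mul_left_cancel₀ hdet
    linear_combination 2 * t * a20 - r * a11 - 2 * q * b20 + p * b11
  have g1 : (2 * f.a0 + f.b1) * q + (f.a1 + 2 * f.b2) * t = s * (g.a1 + 2 * g.b2) := by
    apply mul_left_cancel₀ hdet
    linear_combination t * a11 - 2 * r * a02 - q * b11 + 2 * p * b02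
  -- the fixed point form
  have e0 : (-f.b0) * p ^ 3 + (f.a0 - f.b1) * p ^ 2 * r + (f.a1 - f.b2) * p * r ^ 2 +
      f.a2 * r ^ 3 = s * (p * t - q * r) * (-g.b0) := by
    linear_combination r * a20 - p * b20
  have e3 : (-f.b0) * q ^ 3 + (f.a0 - f.b1) * q ^ 2 * t + (f.a1 - f.b2) * q * t ^ 2 +
      f.a2 * t ^ 3 = s * (p * t - q * r) * g.a2 := by
    linear_combination t * a02 - q * b02
  have e1 : 3 * (-f.b0) * p ^ 2 * q + (f.a0 - f.b1) * (p ^ 2 * t + 2 * p * q * r) +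
      (f.a1 - f.b2) * (2 * p * r * t + q * r ^ 2) + 3 * f.a2 * r ^ 2 * t =
      s * (p * t - q * r) * (g.a0 - g.b1) := by
    linear_combination t * a20 + r * a11 - q * b20 - p * b11
  have e2 : 3 * (-f.b0) * p * q ^ 2 + (f.a0 - f.b1) * (2 * p * q * t + q ^ 2 * r) +
      (f.a1 - f.b2) * (p * t ^ 2 + 2 * q * r * t) + 3 * f.a2 * r * t ^ 2 =
      s * (p * t - q * r) * (g.a1 - g.b2) := by
    linear_combination t * a11 + r * a02 - q * b11 - p * b02
  obtain ⟨h1, h2, h3⟩ := inv_aux hdet e0 e1 e2 e3 g0 g1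
  have hd2 : (p * t - q * r) ^ 2 ≠ 0 := pow_ne_zero 2 hdet
  have hs4 : s ^ 4 ≠ 0 := pow_ne_zero 4 hs
  have j0 : (p * t - q * r) ^ 2 * I0 f.coeffs = s ^ 4 * I0 g.coeffs := by
    simp only [I0, QMap.coeffs, Matrix.cons_val]
    linear_combination 3 * h1 - 3 * h2 + h3
  have j1 : (p * t - q * r) ^ 2 * I1 f.coeffs = s ^ 4 * I1 g.coeffs := by
    simp only [I1, QMap.coeffs, Matrix.cons_val]
    linear_combination 9 * h1 - 6 * h3
  have j2 : (p * t - q * r) ^ 2 * I2 f.coeffs = s ^ 4 * I2 g.coeffs := by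
    simp only [I2, QMap.coeffs, Matrix.cons_val]
    linear_combination 9 * h1 + 9 * h2 + 12 * h3
  have key : ∀ a b : ℂ, (p * t - q * r) ^ 2 * a = s ^ 4 * b →
      a / I0 f.coeffs = b / I0 g.coeffs := by
    intro a b hab
    rw [div_eq_div_iff (I0_ne f) (I0_ne g)]
    apply mul_left_cancel₀ (mul_ne_zero hd2 hs4)
    linear_combination s ^ 4 * I0 g.coeffs * hab - s ^ 4 * b * j0
  unfold sigma
  rw [key _ _ j1, key _ _ j2]

/-- the invariants on the moduli space -/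
noncomputable def sig : M2 → Fin 2 → ℂ := Quot.lift sigma fun _ _ h => sigma_conj h

theorem sig_Phi {a b : ℂ} (hab : a * b ≠ 1) : sig (Phi (a, b)) = ![sg1 a b, sg2 a b] := by
  have e : Phi (a, b) = Quot.mk _ (QMap.N a b hab) := by
    unfold Phi
    rw [dif_pos (show (a, b).1 * (a, b).2 ≠ 1 from hab)]
  rw [e]
  show sigma (QMap.N a b hab) = _
  have h1 : (1 : ℂ) - a * b ≠ 0 := sub_ne_zero.2 (Ne.symm hab)
  have h0 : I0 (QMap.N a b hab).coeffs = 81 * (1 - a * b) := by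
    rw [I0_eq]
    simp only [QMap.N]
    ring
  have k1 : I1 (QMap.N a b hab).coeffs = 81 * ((a + b) * (1 - a * b) + (2 - a - b)) := by
    simp only [I1, A1, A2, A3, QMap.coeffs, QMap.N, Matrix.cons_val]
    ring
  have k2 : I2 (QMap.N a b hab).coeffs =
      81 * (a * b * (1 - a * b) + (a + b) * (2 - a - b)) := by
    simp only [I2, A1, A2, A3, QMap.coeffs, QMap.N, Matrix.cons_val]
    ring
  unfold sigma
  rw [h0, k1, k2]
  have e1 : 81 * ((a + b) * (1 - a * b) + (2 - a - b)) / (81 * (1 - a * b)) = sg1 a b := by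
    unfold sg1
    field_simp
  have e2 : 81 * (a * b * (1 - a * b) + (a + b) * (2 - a - b)) / (81 * (1 - a * b)) =
      sg2 a b := by
    unfold sg2
    field_simp
  rw [e1, e2]

theorem sig_S : sig (Quot.mk _ QMap.S) = ![3, 3] := by
  show sigma QMap.S = _
  have h0 : I0 QMap.S.coeffs = 81 := by
    rw [I0_eq]
    simp only [QMap.S]
    norm_num
  have k1 : I1 QMap.S.coeffs = 243 := by
    simp only [I1, A1, A2, A3, QMap.coeffs, QMap.S, Matrix.cons_val]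
    norm_num
  have k2 : I2 QMap.S.coeffs = 243 := by
    simp only [I2, A1, A2, A3, QMap.coeffs, QMap.S, Matrix.cons_val]
    norm_num
  unfold sigma
  rw [h0, k1, k2]
  norm_num

theorem sg_ne {a b : ℂ} (hab : a * b ≠ 1) (h1 : sg1 a b = 3) (h2 : sg2 a b = 3) : False := by
  have hR : (1 : ℂ) - a * b ≠ 0 := sub_ne_zero.2 (Ne.symm hab)
  unfold sg1 at h1
  unfold sg2 at h2
  have k1 : (a + b) * (1 - a * b) + (2 - a - b) = 3 * (1 - a * b) := by
    field_simp at h1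
    linear_combination h1
  have k2 : a * b * (1 - a * b) + (a + b) * (2 - a - b) = 3 * (1 - a * b) := by
    field_simp at h2
    linear_combination h2
  have k3 : ((1 - a) * (1 - b)) ^ 2 = 0 := by linear_combination 2 * k1 - k2
  have k4 : (1 - a) * (1 - b) = 0 := pow_eq_zero_iff (two_ne_zero) |>.1 k3
  have k5 : ((1 - a) + (1 - b)) ^ 2 = 0 := by
    linear_combination (1 + (1 - a) + (1 - b)) * k4 - k1
  have k6 : (1 - a) + (1 - b) = 0 := pow_eq_zero_iff (two_ne_zero) |>.1 k5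
  apply hR
  linear_combination k6 - k4

open MvPolynomial in
/-- homogenisation -/
theorem exists_hom (P : MvPolynomial (Fin 2) ℂ) : ∃ Q : MvPolynomial (Fin 6) ℂ,
    ∀ v : Fin 6 → ℂ, I0 v ≠ 0 →
      (eval v Q = 0 ↔ eval ![I1 v / I0 v, I2 v / I0 v] P = 0) := by
  refine ⟨∑ m ∈ P.support, C (P.coeff m) * I1 (fun i => (X i : MvPolynomial (Fin 6) ℂ)) ^ (m 0) *
    I2 (fun i => (X i : MvPolynomial (Fin 6) ℂ)) ^ (m 1) *
    I0 (fun i => (X i : MvPolynomial (Fin 6) ℂ)) ^ (P.totalDegree - (m 0 + m 1)), fun v hv => ?_⟩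
  have i0 : eval v (I0 (fun i => (X i : MvPolynomial (Fin 6) ℂ))) = I0 v := by
    simp [I0, A1, A2, A3]
  have i1 : eval v (I1 (fun i => (X i : MvPolynomial (Fin 6) ℂ))) = I1 v := by
    simp [I1, A1, A2, A3]
  have i2 : eval v (I2 (fun i => (X i : MvPolynomial (Fin 6) ℂ))) = I2 v := by
    simp [I2, A1, A2, A3]
  have key : eval v (∑ m ∈ P.support, C (P.coeff m) *
      I1 (fun i => (X i : MvPolynomial (Fin 6) ℂ)) ^ (m 0) *
      I2 (fun i => (X i : MvPolynomial (Fin 6) ℂ)) ^ (m 1) *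
      I0 (fun i => (X i : MvPolynomial (Fin 6) ℂ)) ^ (P.totalDegree - (m 0 + m 1))) =
      I0 v ^ P.totalDegree * eval ![I1 v / I0 v, I2 v / I0 v] P := by
    rw [map_sum, eval_eq', Finset.mul_sum]
    refine Finset.sum_congr rfl (fun m hm => ?_)
    simp only [map_mul, map_pow, eval_C, i0, i1, i2, Fin.prod_univ_two, Matrix.cons_val_zero,
      Matrix.cons_val_one]
    have hdeg : m 0 + m 1 ≤ P.totalDegree := by
      have h1 := le_totalDegree hm
      rw [Finsupp.sum_fintype _ _ (fun _ => rfl), Fin.sum_univ_two] at h1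
      exact h1
    obtain ⟨k, hk⟩ := Nat.exists_eq_add_of_le hdeg
    rw [hk, Nat.add_sub_cancel_left, div_pow, div_pow, pow_add, pow_add]
    field_simp
  rw [key, mul_eq_zero]
  constructor
  · rintro (h | h)
    · exact absurd h (pow_ne_zero _ hv)
    · exact h
  · exact fun h => Or.inr h

end CL1

open CL1

/-- for every polynomial `P` the condition `P(sigma_1, sigma_2) = 0` is closed -/
theorem closed_of_poly (P : MvPolynomial (Fin 2) ℂ) :
    ∃ C : Set M2, IsZClosed C ∧ Quot.mk _ QMap.S ∈ C ∧ ∀ a b : ℂ, a * b ≠ 1 →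
      (Phi (a, b) ∈ C ↔ MvPolynomial.eval ![sg1 a b, sg2 a b] P = 0) := by
  set P0 : MvPolynomial (Fin 2) ℂ := (MvPolynomial.X 0 - 3) * P with hP0
  set P1 : MvPolynomial (Fin 2) ℂ := (MvPolynomial.X 1 - 3) * P with hP1
  obtain ⟨Q0, hQ0⟩ := exists_hom P0
  obtain ⟨Q1, hQ1⟩ := exists_hom P1
  refine ⟨{c | MvPolynomial.eval (sig c) P0 = 0 ∧ MvPolynomial.eval (sig c) P1 = 0},
    ⟨{Q0, Q1}, fun f => ?_⟩, ?_, fun a b hab => ?_⟩
  · show MvPolynomial.eval (sigma f) P0 = 0 ∧ MvPolynomial.eval (sigma f) P1 = 0 ↔ _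
    unfold sigma
    rw [← hQ0 _ (I0_ne f), ← hQ1 _ (I0_ne f)]
    constructor
    · rintro ⟨h0, h1⟩ R hR
      rcases hR with rfl | hR
      · exact h0
      · rw [Set.mem_singleton_iff.1 hR]
        exact h1
    · intro h
      exact ⟨h Q0 (Or.inl rfl), h Q1 (Or.inr rfl)⟩
  · show MvPolynomial.eval (sig (Quot.mk _ QMap.S)) P0 = 0 ∧
      MvPolynomial.eval (sig (Quot.mk _ QMap.S)) P1 = 0
    rw [sig_S, hP0, hP1]
    constructor
    · simp
    · simp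
  · show MvPolynomial.eval (sig (Phi (a, b))) P0 = 0 ∧
      MvPolynomial.eval (sig (Phi (a, b))) P1 = 0 ↔ _
    rw [sig_Phi hab, hP0, hP1]
    have e0 : MvPolynomial.eval ![sg1 a b, sg2 a b] ((MvPolynomial.X 0 - 3) * P) =
        (sg1 a b - 3) * MvPolynomial.eval ![sg1 a b, sg2 a b] P := by
      simp
    have e1 : MvPolynomial.eval ![sg1 a b, sg2 a b] ((MvPolynomial.X 1 - 3) * P) =
        (sg2 a b - 3) * MvPolynomial.eval ![sg1 a b, sg2 a b] P := by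
      simp
    rw [e0, e1]
    constructor
    · rintro ⟨h0, h1⟩
      by_contra hP
      have h2 := (mul_eq_zero.1 h0).resolve_right hP
      have h3 := (mul_eq_zero.1 h1).resolve_right hP
      exact sg_ne hab (sub_eq_zero.1 h2) (sub_eq_zero.1 h3)
    · intro h
      rw [h, mul_zero, mul_zero]
      exact ⟨rfl, rfl⟩

end Pool.Agent.helper56.P3
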